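import Mathlib

/-!
# A binary quasi group code whose permutation automorphism group has order two

A binary linear code of length 12 and dimension 6 whose permutation automorphism group consists
of the identity and of the fixed-point-free involution `(1,2)(3,4)...(11,12)`.
-/

set_option autoImplicit false

namespace Pool.Agent.Results.MP_e1d516_co.CodeOfLengthTwelve

open Equiv

/-- The word `c^β`, whose `i`-th coordinate is the coordinate of `c` with index `β⁻¹ i`. -/
def permute {n : ℕ} (β : Perm (Fin n)) (c : Fin n → ZMod 2) : Fin n → ZMod 2 :=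
  fun i => c (β⁻¹ i)

/-- The permutation automorphism group `{β | C^β = C}` of a binary linear code `C` of
length `n`. -/
def PAut {n : ℕ} (C : Submodule (ZMod 2) (Fin n → ZMod 2)) : Subgroup (Perm (Fin n)) where
  carrier := {β | permute β '' (C : Set (Fin n → ZMod 2)) = C}
  one_mem' := by
    have : (permute (1 : Perm (Fin n))) = id := by
      funext c i
      simp [permute]
    simp [this]
  mul_mem' := by
    intro a b ha hb
    simp only [Set.mem_ofPred_eq] at *
    have : permute (a * b) = permute a ∘ permute b := by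
      funext c i
      simp [permute, mul_inv_rev]
    rw [this, Set.image_comp, hb, ha]
  inv_mem' := by
    intro a ha
    simp only [Set.mem_ofPred_eq] at *
    have h1 : permute a⁻¹ ∘ permute a = id := by
      funext c i
      simp [permute]
    calc permute a⁻¹ '' (C : Set (Fin n → ZMod 2))
        = permute a⁻¹ '' (permute a '' (C : Set (Fin n → ZMod 2))) := by rw [ha]
      _ = C := by rw [← Set.image_comp, h1, Set.image_id]

/-- A subgroup of the symmetric group acts freely: no non-identity element fixes a point. -/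
def ActsFreely {n : ℕ} (G : Subgroup (Perm (Fin n))) : Prop :=
  ∀ g ∈ G, g ≠ 1 → ∀ i, g i ≠ i

/-- `C` is a quasi group code: its permutation automorphism group contains a nontrivial subgroup
which acts freely. -/
def IsQuasiGroupCode {n : ℕ} (C : Submodule (ZMod 2) (Fin n → ZMod 2)) : Prop :=
  ∃ G : Subgroup (Perm (Fin n)), G ≤ PAut C ∧ G ≠ ⊥ ∧ ActsFreely G

/-! ### The code -/

/-- The involution `(0,1)(2,3)(4,5)(6,7)(8,9)(10,11)`. -/
def sigma : Perm (Fin 12) :=
  swap 0 1 * swap 2 3 * swap 4 5 * swap 6 7 * swap 8 9 * swap 10 11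

/-- The generator matrix: the rows have supports `{2,5,7}`, `{3,4,6}`, `{0,1,2,8}`, `{0,1,3,9}`,
`{0,4,8,11}`, `{1,5,9,10}`. -/
def gen : Fin 6 → Fin 12 → ZMod 2 :=
  ![![0, 0, 1, 0, 0, 1, 0, 1, 0, 0, 0, 0],
    ![0, 0, 0, 1, 1, 0, 1, 0, 0, 0, 0, 0],
    ![1, 1, 1, 0, 0, 0, 0, 0, 1, 0, 0, 0],
    ![1, 1, 0, 1, 0, 0, 0, 0, 0, 1, 0, 0],
    ![1, 0, 0, 0, 1, 0, 0, 0, 1, 0, 0, 1],
    ![0, 1, 0, 0, 0, 1, 0, 0, 0, 1, 1, 0]]

/-- A parity check matrix. -/
def chk : Fin 6 → Fin 12 → ZMod 2 :=
  ![![0, 0, 0, 0, 0, 1, 0, 1, 0, 0, 1, 0],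
    ![0, 0, 0, 0, 1, 0, 1, 0, 0, 0, 0, 1],
    ![1, 0, 0, 1, 0, 0, 1, 0, 1, 0, 0, 0],
    ![0, 1, 1, 0, 0, 0, 0, 1, 0, 1, 0, 0],
    ![0, 0, 0, 1, 0, 0, 1, 0, 0, 1, 1, 0],
    ![0, 0, 1, 0, 0, 0, 0, 1, 1, 0, 0, 1]]

/-- The encoding map. -/
def enc : (Fin 6 → ZMod 2) →ₗ[ZMod 2] (Fin 12 → ZMod 2) := Fintype.linearCombination (ZMod 2) gen

/-- the same map, for computations -/
def enc' (m : Fin 6 → ZMod 2) (i : Fin 12) : ZMod 2 :=
  m 0 * gen 0 i + m 1 * gen 1 i + m 2 * gen 2 i + m 3 * gen 3 i + m 4 * gen 4 i + m 5 * gen 5 i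

theorem enc_eq (m : Fin 6 → ZMod 2) : enc m = enc' m := by
  funext i
  simp [enc, enc', Fintype.linearCombination_apply, Fin.sum_univ_succ]
  ring

/-- The code. -/
def code : Submodule (ZMod 2) (Fin 12 → ZMod 2) := LinearMap.range enc

theorem enc'_inj : ∀ m : Fin 6 → ZMod 2, enc' m = 0 → m = 0 := by
  decide +kernel

theorem enc_injective : Function.Injective enc := by
  rw [← LinearMap.ker_eq_bot, LinearMap.ker_eq_bot']
  intro m hm
  rw [enc_eq] at hm
  exact enc'_inj m hm

/-- weight -/
def wt (c : Fin 12 → ZMod 2) : ℕ := (Finset.univ.filter fun i => c i ≠ 0).card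

/-- number of codewords of weight `w` with a one at `i` -/
def N (w : ℕ) (i : Fin 12) : ℕ :=
  (Finset.univ.filter fun m : Fin 6 → ZMod 2 => wt (enc' m) = w ∧ enc' m i ≠ 0).card

/-- the two points of a pair -/
def sg (i : Fin 12) : Fin 12 := ⟨if i.val % 2 = 0 then i.val + 1 else i.val - 1, by
  split <;> omega⟩

theorem sg_eq : ∀ i, sigma i = sg i := by decide +kernel

theorem N_three : ∀ i, N 3 i = (![0, 0, 1, 1, 1, 1, 1, 1, 0, 0, 0, 0] : Fin 12 → ℕ) i := by
  decide +kernel

theorem N_four : ∀ i, N 4 i = (![4, 4, 3, 3, 2, 2, 0, 0, 3, 3, 2, 2] : Fin 12 → ℕ) i := by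
  decide +kernel

theorem pair_of_N : ∀ i j, N 3 j = N 3 i → N 4 j = N 4 i → j = i ∨ j = sg i := by
  simp only [N_three, N_four]
  decide +kernel

/-- parity checks -/
def par (r : Fin 6) (c : Fin 12 → ZMod 2) : ZMod 2 :=
  chk r 0 * c 0 + chk r 1 * c 1 + chk r 2 * c 2 + chk r 3 * c 3 + chk r 4 * c 4 + chk r 5 * c 5 +
  chk r 6 * c 6 + chk r 7 * c 7 + chk r 8 * c 8 + chk r 9 * c 9 + chk r 10 * c 10 +
  chk r 11 * c 11

theorem par_enc' : ∀ (m : Fin 6 → ZMod 2) (r : Fin 6), par r (enc' m) = 0 := by
  decide +kernel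

theorem par_of_mem {c : Fin 12 → ZMod 2} (hc : c ∈ code) (r : Fin 6) : par r c = 0 := by
  obtain ⟨m, rfl⟩ := hc
  rw [enc_eq]
  exact par_enc' m r

/-- the pairs which are swapped by `s` -/
def swp (s : Fin 6 → Bool) (i : Fin 12) : Fin 12 :=
  if s ⟨i.val / 2, by omega⟩ then sg i else i

theorem only_two : ∀ s : Fin 6 → Bool, (∀ r r' : Fin 6, par r' (fun i => gen r (swp s i)) = 0) →
    (∀ j, s j = false) ∨ (∀ j, s j = true) := by
  decide +kernel

/-- the action of `sigma` on the messages -/
theorem sigma_gen : ∀ r : Fin 6, ∃ m : Fin 6 → ZMod 2, ∀ i, enc' m i = gen r (sg i) := by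
  decide +kernel

theorem gen_mem (r : Fin 6) : gen r ∈ code := by
  refine ⟨Pi.single r 1, ?_⟩
  simp [enc, Fintype.linearCombination_apply_single]

theorem permute_mem {β : Perm (Fin 12)} (hβ : β ∈ PAut code) {c : Fin 12 → ZMod 2}
    (hc : c ∈ code) : permute β c ∈ code := by
  have h : permute β '' (code : Set (Fin 12 → ZMod 2)) = code := hβ
  have : permute β c ∈ permute β '' (code : Set (Fin 12 → ZMod 2)) := ⟨c, hc, rfl⟩
  rw [h] at this
  exact this

theorem wt_permute (β : Perm (Fin 12)) (c : Fin 12 → ZMod 2) : wt (permute β c) = wt c := by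
  unfold wt
  refine Finset.card_bij (fun i _ => β⁻¹ i) ?_ ?_ ?_
  · intro i hi
    rw [Finset.mem_filter] at hi ⊢
    exact ⟨Finset.mem_univ _, hi.2⟩
  · intro i _ j _ h
    exact β⁻¹.injective h
  · intro i hi
    rw [Finset.mem_filter] at hi
    refine ⟨β i, ?_, ?_⟩
    · rw [Finset.mem_filter]
      refine ⟨Finset.mem_univ _, ?_⟩
      change c (β⁻¹ (β i)) ≠ 0
      rw [show β⁻¹ (β i) = i by simp]
      exact hi.2
    · change β⁻¹ (β i) = i
      simp

theorem N_le {β : Perm (Fin 12)} (hβ : β ∈ PAut code) (w : ℕ) (i : Fin 12) :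
    N w i ≤ N w (β i) := by
  have hex : ∀ m : Fin 6 → ZMod 2, ∃ m', enc m' = permute β (enc m) := fun m =>
    permute_mem hβ ⟨m, rfl⟩
  choose f hf using hex
  unfold N
  refine Finset.card_le_card_of_injOn f ?_ ?_
  · intro m hm
    simp only [Finset.coe_filter, Finset.mem_univ, true_and, Set.mem_ofPred_eq] at hm ⊢
    rw [← enc_eq, hf, wt_permute, enc_eq]
    refine ⟨hm.1, ?_⟩
    simpa [permute] using hm.2
  · intro m _ m' _ h
    apply enc_injective
    have h1 : permute β (enc m) = permute β (enc m') := by rw [← hf, ← hf, h]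
    funext i
    have := congrFun h1 (β i)
    simpa [permute] using this

theorem N_eq {β : Perm (Fin 12)} (hβ : β ∈ PAut code) (w : ℕ) (i : Fin 12) :
    N w (β i) = N w i := by
  apply le_antisymm
  · have := N_le ((PAut code).inv_mem hβ) w (β i)
    simpa using this
  · exact N_le hβ w i

theorem pair_fixed {β : Perm (Fin 12)} (hβ : β ∈ PAut code) (i : Fin 12) :
    β i = i ∨ β i = sg i :=
  pair_of_N i (β i) (N_eq hβ 3 i) (N_eq hβ 4 i)

theorem sg_sg : ∀ i, sg (sg i) = i := by decide +kernel

theorem sg_ne : ∀ i, sg i ≠ i := by decide +kernel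

theorem eq_or {β : Perm (Fin 12)} (hβ : β ∈ PAut code) : β = 1 ∨ β = sigma := by
  have hγ := (PAut code).inv_mem hβ
  set γ := β⁻¹ with hγdef
  let ev : Fin 6 → Fin 12 := fun j => ⟨2 * j.val, by omega⟩
  let s : Fin 6 → Bool := fun j => decide (γ (ev j) = sg (ev j))
  have hev : ∀ i : Fin 12, i = ev ⟨i.val / 2, by omega⟩ ∨ i = sg (ev ⟨i.val / 2, by omega⟩) := by
    decide +kernel
  have hs : ∀ i, γ i = swp s i := by
    intro i
    unfold swp
    set j : Fin 6 := ⟨i.val / 2, by omega⟩ with hj
    rcases hev i with h | h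
    · rw [← hj] at h
      by_cases hc : γ (ev j) = sg (ev j)
      · have : s j = true := by simp [s, hc]
        rw [if_pos this, h, hc]
      · have : s j = false := by simp [s, hc]
        rw [if_neg (by simp [this])]
        rcases pair_fixed hγ i with h1 | h1
        · exact h1
        · exact absurd (by rw [← h]; exact h1) hc
    · rw [← hj] at h
      have h2 : sg i = ev j := by rw [h, sg_sg]
      by_cases hc : γ (ev j) = sg (ev j)
      · have : s j = true := by simp [s, hc]
        rw [if_pos this, h2]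
        rcases pair_fixed hγ i with h1 | h1
        · exfalso
          have h3 : γ i = γ (ev j) := by rw [h1, hc, ← h]
          have h4 := γ.injective h3
          rw [h4] at h2
          exact sg_ne _ h2
        · rw [h1, h2]
      · have : s j = false := by simp [s, hc]
        rw [if_neg (by simp [this])]
        rcases pair_fixed hγ i with h1 | h1
        · exact h1
        · exfalso
          have h5 : γ (ev j) = ev j := by
            rcases pair_fixed hγ (ev j) with h6 | h6
            · exact h6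
            · exact absurd h6 hc
          have h3 : γ i = γ (ev j) := by rw [h1, h2, h5]
          have h4 := γ.injective h3
          rw [h4] at h2
          exact sg_ne _ h2
  have hpar : ∀ r r' : Fin 6, par r' (fun i => gen r (swp s i)) = 0 := by
    intro r r'
    have h1 : permute β (gen r) = fun i => gen r (swp s i) := by
      funext i
      change gen r (γ i) = _
      rw [hs]
    rw [← h1]
    exact par_of_mem (permute_mem hβ (gen_mem r)) r'
  rcases only_two s hpar with h | h
  · left
    have : γ = 1 := by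
      ext i
      rw [hs, swp, if_neg (by simp [h])]
      rfl
    rw [hγdef, inv_eq_one] at this
    exact this
  · right
    have : γ = sigma := by
      ext i
      rw [hs, swp, if_pos (h _), sg_eq]
    have h2 : sigma⁻¹ = sigma := by
      rw [inv_eq_iff_mul_eq_one]
      ext i
      rw [Perm.mul_apply, sg_eq, sg_eq, sg_sg]
      rfl
    rw [← h2, ← this, hγdef, inv_inv]

theorem sigma_inv : sigma⁻¹ = sigma := by
  rw [inv_eq_iff_mul_eq_one]
  ext i
  rw [Perm.mul_apply, sg_eq, sg_eq, sg_sg]
  rfl

theorem sigma_ne_one : sigma ≠ 1 := by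
  intro h
  have := congrArg (fun g => g 0) h
  simp only [sg_eq, Perm.one_apply] at this
  exact sg_ne 0 this

theorem permute_sigma_mem {c : Fin 12 → ZMod 2} (hc : c ∈ code) : permute sigma c ∈ code := by
  obtain ⟨m, rfl⟩ := hc
  have hg : ∀ r, permute sigma (gen r) ∈ code := by
    intro r
    obtain ⟨m', hm'⟩ := sigma_gen r
    refine ⟨m', ?_⟩
    rw [enc_eq]
    funext i
    rw [hm' i]
    simp [permute, sigma_inv, sg_eq]
  have h1 : permute sigma (enc m) = ∑ r, m r • permute sigma (gen r) := by
    funext i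
    simp [permute, enc, Fintype.linearCombination_apply]
  rw [h1]
  exact Submodule.sum_mem _ fun r _ => Submodule.smul_mem _ _ (hg r)

theorem sigma_mem : sigma ∈ PAut code := by
  change permute sigma '' (code : Set (Fin 12 → ZMod 2)) = code
  apply Set.Subset.antisymm
  · rintro _ ⟨c, hc, rfl⟩
    exact permute_sigma_mem hc
  · intro c hc
    refine ⟨permute sigma c, permute_sigma_mem hc, ?_⟩
    funext i
    simp [permute, sigma_inv, sg_eq, sg_sg]

theorem mem_iff (β : Perm (Fin 12)) : β ∈ PAut code ↔ β = 1 ∨ β = sigma := by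
  constructor
  · exact eq_or
  · rintro (rfl | rfl)
    · exact (PAut code).one_mem
    · exact sigma_mem

theorem card_PAut : Nat.card (PAut code) = 2 := by
  have h : ((PAut code : Subgroup (Perm (Fin 12))) : Set (Perm (Fin 12))) = {1, sigma} := by
    ext β
    simpa using mem_iff β
  have h1 : Nat.card (PAut code) = Set.ncard ((PAut code : Subgroup _) : Set (Perm (Fin 12))) :=
    rfl
  rw [h1, h, Set.ncard_pair sigma_ne_one.symm]

theorem quasi : IsQuasiGroupCode code := by
  refine ⟨PAut code, le_refl _, ?_, ?_⟩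
  · intro h
    have h1 := sigma_mem
    rw [h, Subgroup.mem_bot] at h1
    exact sigma_ne_one h1
  · intro g hg hg1 i
    rcases eq_or hg with h | h
    · exact absurd h hg1
    · rw [h, sg_eq]
      exact sg_ne i

/-- There is a binary linear quasi group code of even length `2m > 2` whose permutation
automorphism group is cyclic of order two; in fact there is one of length 12 and dimension 6,
whose permutation automorphism group consists of the identity and
`(0,1)(2,3)(4,5)(6,7)(8,9)(10,11)` (coordinates numbered from 0). So the answer to Q1 is no. -/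
theorem result :
    (∃ m : ℕ, 2 ≤ m ∧ ∃ C : Submodule (ZMod 2) (Fin (2 * m) → ZMod 2),
      IsQuasiGroupCode C ∧ Nonempty (PAut C ≃* Multiplicative (ZMod 2))) ∧
    ∃ C : Submodule (ZMod 2) (Fin 12 → ZMod 2), Module.finrank (ZMod 2) C = 6 ∧
      ∀ β : Perm (Fin 12), β ∈ PAut C ↔
        β = 1 ∨ β = swap 0 1 * swap 2 3 * swap 4 5 * swap 6 7 * swap 8 9 * swap 10 11 := by
  refine ⟨⟨6, by norm_num, code, quasi, ?_⟩, code, ?_, mem_iff⟩
  · have hc : Nat.card (PAut code) = Nat.card (Multiplicative (ZMod 2)) := by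
      rw [card_PAut]
      simp
    have : IsCyclic (PAut code) := isCyclic_of_prime_card (p := 2) card_PAut
    exact ⟨mulEquivOfCyclicCardEq hc⟩
  · have h1 : Module.finrank (ZMod 2) (LinearMap.range enc) =
        Module.finrank (ZMod 2) (Fin 6 → ZMod 2) :=
      LinearMap.finrank_range_of_inj enc_injective
    rw [show code = LinearMap.range enc from rfl, h1]
    simp

end Pool.Agent.Results.MP_e1d516_co.CodeOfLengthTwelve
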